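import Mathlib
import Pool.Agent.H4.HW.Main

/-!
# Descent with linear functionals
-/

set_option autoImplicit false
set_option linter.unusedSectionVars false

namespace Pool.Agent.H20.TH

open Matrix Pool.Agent.H4.HW

variable {k F : Type} [Field k] [CharZero k] [Field F] [CharZero F] [Algebra k F]

theorem fun_mul (φ : F →ₗ[k] k) (q : k) (x : F) : φ (algebraMap k F q * x) = q * φ x := by
  rw [← Algebra.smul_def, map_smul, smul_eq_mul]

theorem fun_mul' (φ : F →ₗ[k] k) (q : k) (x : F) : φ (x * algebraMap k F q) = φ x * q := by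
  rw [mul_comm, fun_mul, mul_comm]

section mul

variable {m n p : Type} [Fintype n]

theorem fmap_left (φ : F →ₗ[k] k) (G : Matrix m n k) (X : Matrix n p F) :
    (G.map (algebraMap k F) * X).map φ = G * X.map φ := by
  ext s t
  rw [map_apply, mul_apply, mul_apply, map_sum]
  refine Finset.sum_congr rfl fun r _ => ?_
  rw [map_apply, map_apply, fun_mul]

theorem fmap_right (φ : F →ₗ[k] k) (X : Matrix m n F) (G : Matrix n p k) :
    (X * G.map (algebraMap k F)).map φ = X.map φ * G := by
  ext s t
  rw [map_apply, mul_apply, mul_apply, map_sum]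
  refine Finset.sum_congr rfl fun r _ => ?_
  rw [map_apply, map_apply, fun_mul']

theorem fmap_sub (φ : F →ₗ[k] k) (X Y : Matrix m n F) :
    (X - Y).map φ = X.map φ - Y.map φ := by
  ext s t
  simp

theorem fmap_add (φ : F →ₗ[k] k) (X Y : Matrix m n F) :
    (X + Y).map φ = X.map φ + Y.map φ := by
  ext s t
  simp

theorem fmap_zero (φ : F →ₗ[k] k) : (0 : Matrix m n F).map φ = 0 := by
  ext s t
  simp

end mul

variable {T : Type} [Fintype T] [DecidableEq T]

/-- the images of the elements of the extension under functionals are in the space -/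
theorem fmap_mem {L : Submodule k (Matrix T T k)} {X : Matrix T T F}
    (h : X ∈ extk F L) (φ : F →ₗ[k] k) : X.map φ ∈ L := by
  revert φ
  induction h using Submodule.span_induction with
  | mem x hx =>
    intro φ
    obtain ⟨x, hx, rfl⟩ := hx
    have h1 : (x.map (algebraMap k F)).map φ = φ 1 • x := by
      ext s t
      have h2 := fun_mul φ (x s t) 1
      rw [mul_one] at h2
      rw [map_apply, map_apply, h2, Matrix.smul_apply, smul_eq_mul, mul_comm]
    beta_reduce
    rw [h1]
    exact Submodule.smul_mem _ _ hx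
  | zero =>
    intro φ
    rw [fmap_zero]
    exact zero_mem _
  | add x y _ _ h1 h2 =>
    intro φ
    rw [fmap_add]
    exact add_mem (h1 φ) (h2 φ)
  | smul c x hx h1 =>
    intro φ
    exact h1 (φ ∘ₗ LinearMap.mulLeft k c)

/-- a matrix all whose images under functionals are in the set is in the extension -/
theorem mem_extend {L : Set (Matrix T T k)} {X : Matrix T T F}
    (h : ∀ φ : F →ₗ[k] k, X.map φ ∈ L) : X ∈ extend F L := by
  obtain ⟨E, hE⟩ : ∃ E : Submodule k F, E = Submodule.span k (Set.range fun ij : T × T =>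
    X ij.1 ij.2) := ⟨_, rfl⟩
  have hfin : Module.Finite k E := by
    rw [hE]
    exact Module.Finite.span_of_finite k (Set.finite_range _)
  have hmem : ∀ i j, X i j ∈ E := fun i j => by
    rw [hE]
    exact Submodule.subset_span ⟨(i, j), rfl⟩
  let b := Module.finBasis k E
  choose φ hφ using fun i => LinearMap.exists_extend (b.coord i)
  have h1 : X = ∑ i, (b i : F) • (X.map (φ i)).map (algebraMap k F) := by
    ext s t
    have h1 := b.sum_repr ⟨X s t, hmem s t⟩
    have h2 := congrArg (fun z : E => (z : F)) h1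
    simp only [Submodule.coe_sum, Submodule.coe_smul] at h2
    rw [Matrix.sum_apply, ← h2]
    refine Finset.sum_congr rfl fun i _ => ?_
    have h3 := LinearMap.congr_fun (hφ i) ⟨X s t, hmem s t⟩
    rw [LinearMap.comp_apply, Submodule.subtype_apply, Module.Basis.coord_apply] at h3
    rw [← h3, Matrix.smul_apply, map_apply, map_apply, Algebra.smul_def, smul_eq_mul, mul_comm]
  rw [h1]
  exact Submodule.sum_mem _ fun i _ => Submodule.smul_mem _ _ (Submodule.subset_span ⟨_, h _, rfl⟩)

theorem mem_extk {L : Submodule k (Matrix T T k)} {X : Matrix T T F}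
    (h : ∀ φ : F →ₗ[k] k, X.map φ ∈ L) : X ∈ extk F L :=
  mem_extend (L := (L : Set (Matrix T T k))) h

variable {B : Type} {M : Betti T B}

theorem fmap_block {blk : T → B} {X : Matrix T T F} (h : IsBlock blk X) (φ : F →ₗ[k] k) :
    IsBlock blk (X.map φ) := by
  intro s t hst
  rw [map_apply, h s t hst, map_zero]

theorem fmap_pol {S : Set B} {X : Matrix T T F} (h : M.Pol S X) (φ : F →ₗ[k] k) :
    M.Pol S (X.map φ) := by
  intro b hb s t hs
  have h1 := congrArg φ (h b hb s t hs)
  have h2 : (Xᵀ * M.EF F + M.EF F * X).map φ = (X.map φ)ᵀ * M.EF k + M.EF k * X.map φ := by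
    rw [fmap_add, ← M.EF_map (k := k), fmap_left, fmap_right, transpose_map]
  have h3 := congrFun (congrFun h2 s) t
  rw [map_apply] at h3
  rw [← h3, h1, ← M.EF_map (k := k) (F := F), map_apply, map_apply, fun_mul']
  have h4 : ((M.wt b : ℤ) : F) = algebraMap k F (M.wt b) := by rw [map_intCast]
  rw [h4, fun_mul]

/-- the relation for a homomorphism -/
theorem fmap_rel {n : ℤ} {o : T} {G : Matrix T T k} {X : Matrix T T F}
    (h : (2 : F) • (X * G.map (algebraMap k F) - G.map (algebraMap k F) * X) =
      ((n : F) * X o o) • G.map (algebraMap k F)) (φ : F →ₗ[k] k) :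
    (2 : k) • (X.map φ * G - G * X.map φ) = ((n : k) * X.map φ o o) • G := by
  have h1 := congrArg (fun Z : Matrix T T F => Z.map φ) h
  beta_reduce at h1
  have h2 : ∀ (Z : Matrix T T F), ((2 : F) • Z).map φ = (2 : k) • Z.map φ := by
    intro Z
    ext s t
    have h3 := fun_mul φ 2 (Z s t)
    rw [map_ofNat] at h3
    rw [map_apply, Matrix.smul_apply, smul_eq_mul, h3, Matrix.smul_apply, map_apply, smul_eq_mul]
  rw [h2, fmap_sub, fmap_left, fmap_right] at h1
  rw [h1]
  ext s t
  rw [map_apply, Matrix.smul_apply, map_apply, smul_eq_mul, fun_mul', Matrix.smul_apply, smul_eq_mul,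
    map_apply]
  congr 1
  have h3 := fun_mul φ (n : k) (X o o)
  rw [map_intCast] at h3
  exact h3

/-- the relation for a matrix, applied to the homomorphism -/
theorem fmap_hom {n : ℤ} {o : T} {X : Matrix T T k} {C : Matrix T T F}
    (h : X.map (algebraMap k F) * C - C * X.map (algebraMap k F) =
      ((n : F) * X.map (algebraMap k F) o o) • C) (φ : F →ₗ[k] k) :
    X * C.map φ - C.map φ * X = ((n : k) * X o o) • C.map φ := by
  have h1 := congrArg (fun Z : Matrix T T F => Z.map φ) h
  beta_reduce at h1
  rw [fmap_sub, fmap_left, fmap_right] at h1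
  rw [h1]
  ext s t
  have h2 : ((n : F) * X.map (algebraMap k F) o o) = algebraMap k F ((n : k) * X o o) := by
    rw [map_apply, map_mul, map_intCast]
  rw [h2, map_apply, Matrix.smul_apply, smul_eq_mul, fun_mul, Matrix.smul_apply, map_apply,
    smul_eq_mul]

end Pool.Agent.H20.TH
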