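import Mathlib
import Pool.Agent.H20.TD.Defs

/-!
# Definitions: sums of motives with isolated Hodge numbers, and the maps between the summands
-/

set_option autoImplicit false

namespace Pool.Agent.H20.TH

open Matrix Pool.Agent.H4.HW Pool.Agent.H20.TD Polynomial

variable {T B : Type} [Fintype T] [DecidableEq T] (M : Betti T B)

/-- The Betti realization of a motive: `o` spans a summand `ℚ(-1)`, and for `b ∈ S` the motive `M_b` has
an isolated Hodge number. -/
structure IsBetti (S : Set B) : Prop where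
  /-- the Hodge decomposition is compatible with the decomposition `M = ⨁ M_b` -/
  basis : IsUnit M.P.det ∧ IsBlock M.blk M.P
  /-- the form is nondegenerate and compatible with the decomposition (on the summands `M_b` with
  `b ∉ S` it is an arbitrary invertible matrix) -/
  form : IsUnit M.E.det ∧ IsBlock M.blk M.E
  tate : (∀ t, M.blk t = M.blk M.o → t = M.o) ∧ M.hdg M.o = 1 ∧ M.blk M.o ∉ S
  isolated : ∀ b ∈ S, ∃ v, Isolated M S b v

/-- `C` is a map of Hodge structures `M_c → M_b(m)` (extended by zero). -/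
def HodgeMap (b c : B) (m : ℤ) (C : Matrix T T ℚ) : Prop :=
  MapsTo M b c C ∧ M.D * C.map (algebraMap ℚ ℂ) - C.map (algebraMap ℚ ℂ) * M.D =
    m • C.map (algebraMap ℚ ℂ)

/-- The Tate conjecture for the homomorphisms between different summands `M_b`, `M_c` in `S` with
alternating polarizations (`m` is the half of the difference of the weights): the maps `M_c → M_b(m)` of
the `ℓ`-adic realizations which commute with an open subgroup of the Galois group are the
`ℚ_ℓ`-linear combinations of the maps of Hodge structures. -/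
def TateHom (S : Set B) {ℓ : ℕ} [Fact ℓ.Prime] {Γ : Type} [Group Γ] [TopologicalSpace Γ]
    (ρ : Γ →* Matrix T T ℚ_[ℓ]) : Prop :=
  ∀ b ∈ S, ∀ c ∈ S, b ≠ c → Alternating M b → Alternating M c → ∀ m : ℤ,
    2 * m = M.wt b - M.wt c → ∀ C : Matrix T T ℚ_[ℓ],
    (MapsTo M b c C ∧ ∃ U : Subgroup Γ, IsOpen (U : Set Γ) ∧
      ∀ g ∈ U, ρ g * C = (ρ g M.o M.o) ^ m • (C * ρ g)) ↔
    C ∈ extend ℚ_[ℓ] {G | HodgeMap M b c m G}

/-- The maps of Hodge structures between different summands in `S` with alternating polarizations are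
motivated: they commute with the Lie algebra `𝔪` of the motivic Galois group. -/
def MotHom (S : Set B) (𝔪 : Submodule ℚ (Matrix T T ℚ)) : Prop :=
  ∀ b ∈ S, ∀ c ∈ S, b ≠ c → Alternating M b → Alternating M c → ∀ m : ℤ,
    2 * m = M.wt b - M.wt c → ∀ G, HodgeMap M b c m G →
    ∀ X ∈ 𝔪, X * G - G * X = ((m : ℚ) * X M.o M.o) • G

/-- Some element `γ` of the Galois group distinguishes the `ℓ`-adic realizations of `M_b` and `M_c(-m)`: for
all `e > 0` the kernels of some polynomial in `γ ^ e` on the two spaces have different dimensions.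
For example this holds if the ranks are different (the polynomial `0`), or if `γ` acts unipotently, with
different Jordan types. -/
def Differ (b c : B) (m : ℤ) {ℓ : ℕ} [Fact ℓ.Prime] {Γ : Type} [Group Γ]
    (ρ : Γ →* Matrix T T ℚ_[ℓ]) : Prop :=
  ∃ γ : Γ, ∀ e : ℕ, 0 < e → ∃ P : ℚ_[ℓ][X],
    Module.finrank ℚ_[ℓ] ↥(space ℚ_[ℓ] M.blk b ⊓
      LinearMap.ker (aeval (ρ (γ ^ e)) P).mulVecLin) ≠
    Module.finrank ℚ_[ℓ] ↥(space ℚ_[ℓ] M.blk c ⊓
      LinearMap.ker (aeval ((ρ (γ ^ e) M.o M.o) ^ m • ρ (γ ^ e)) P).mulVecLin)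

/-- For different `b`, `c` in `S` with alternating polarizations there are no maps of Hodge structures
`M_c → M_b(m)`, where `m` is the half of the difference of the weights, and some element of the
Galois group distinguishes the `ℓ`-adic realizations. -/
def Distinct (S : Set B) {ℓ : ℕ} [Fact ℓ.Prime] {Γ : Type} [Group Γ]
    (ρ : Γ →* Matrix T T ℚ_[ℓ]) : Prop :=
  ∀ b ∈ S, ∀ c ∈ S, b ≠ c → Alternating M b → Alternating M c → ∀ m : ℤ,
    2 * m = M.wt b - M.wt c → (∀ G, HodgeMap M b c m G → G = 0) ∧ Differ M b c m ρ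

end Pool.Agent.H20.TH
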