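import Mathlib
import Pool.Agent.H20.TD.Main

/-!
# Homomorphisms of the Lie algebra and of an open subgroup
-/

set_option autoImplicit false
set_option linter.unusedSectionVars false

namespace Pool.Agent.H20.TH

open Matrix Filter Topology Pool.Agent.H4.HW Pool.Agent.H20.TD
open scoped Matrix.Norms.Elementwise

variable {T B : Type} [Fintype T] [DecidableEq T] {M : Betti T B}
  {ℓ : ℕ} [Fact ℓ.Prime] {Γ : Type} [Group Γ] [TopologicalSpace Γ]
  {ρ : Γ →* Matrix T T ℚ_[ℓ]}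

/-- the sum of the representation and of its twist -/
noncomputable def dbl (ρ : Γ →* Matrix T T ℚ_[ℓ]) (χ : Γ →* ℚ_[ℓ]) :
    Γ →* Matrix (T ⊕ T) (T ⊕ T) ℚ_[ℓ] where
  toFun g := fromBlocks (ρ g) 0 0 (χ g • ρ g)
  map_one' := by
    rw [map_one, map_one, one_smul, fromBlocks_one]
  map_mul' g h := by
    rw [fromBlocks_multiply, map_mul, map_mul]
    congr 1
    · rw [Matrix.zero_mul, add_zero]
    · rw [Matrix.zero_mul, Matrix.mul_zero, add_zero]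
    · rw [Matrix.zero_mul, Matrix.mul_zero, add_zero]
    · rw [Matrix.zero_mul, zero_add, smul_mul_smul_comm]

/-- a homomorphism of twisted representations of the Lie algebra is a homomorphism over an open
subgroup -/
theorem exp_hom [IsTopologicalGroup Γ]
    (ho : ∀ t, M.blk t = M.blk M.o → t = M.o) (hc : Continuous ρ)
    (hb : ∀ g, IsBlock M.blk (ρ g)) {C : Matrix T T ℚ_[ℓ]} {m : ℤ}
    (h : ∀ Z ∈ Lie.sub ρ, Z * C - C * Z = ((m : ℚ_[ℓ]) * Z M.o M.o) • C) :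
    ∃ U : Subgroup Γ, IsOpen (U : Set Γ) ∧ ∀ g ∈ U, ρ g * C = (ρ g M.o M.o) ^ m • (C * ρ g) := by
  let χ : Γ →* ℚ_[ℓ] :=
    { toFun := fun g => (ρ g M.o M.o) ^ m
      map_one' := by rw [map_one, Matrix.one_apply_eq, _root_.one_zpow]
      map_mul' := fun g h => by rw [oo_mul ho hb, mul_zpow] }
  have hχ : ∀ g, χ g = (ρ g M.o M.o) ^ m := fun _ => rfl
  have hχc : Continuous χ := by
    refine Continuous.zpow₀ ?_ m fun g => Or.inl (oo_ne ho hb g)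
    exact (continuous_apply_apply M.o M.o).comp hc
  have hdc : Continuous (dbl ρ χ) := by
    show Continuous fun g => fromBlocks (ρ g) 0 0 (χ g • ρ g)
    exact hc.matrix_fromBlocks continuous_const continuous_const (hχc.smul hc)
  refine ⟨Lie.small (dbl ρ χ), Lie.small_open _ hdc, fun g hg => ?_⟩
  have h1 := Lie.comm_small (dbl ρ χ) (B := fromBlocks 0 C 0 0) (by
    intro Z' hZ'
    obtain ⟨σ, hσ⟩ := (Lie.mem_iff (dbl ρ χ) Z').1 hZ'
    have e0 : ∀ k, ((ℓ : ℚ_[ℓ]) ^ k)⁻¹ • (dbl ρ χ (σ k) - 1) =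
        fromBlocks (((ℓ : ℚ_[ℓ]) ^ k)⁻¹ • (ρ (σ k) - 1)) 0 0
          (((ℓ : ℚ_[ℓ]) ^ k)⁻¹ • (χ (σ k) • ρ (σ k) - 1)) := by
      intro k
      ext s t
      rcases s with s | s <;> rcases t with t | t <;>
        simp [dbl, Matrix.one_apply]
    have hσ' : Tendsto (fun k : ℕ => fromBlocks (((ℓ : ℚ_[ℓ]) ^ k)⁻¹ • (ρ (σ k) - 1))
        (0 : Matrix T T ℚ_[ℓ]) (0 : Matrix T T ℚ_[ℓ])
        (((ℓ : ℚ_[ℓ]) ^ k)⁻¹ • (χ (σ k) • ρ (σ k) - 1))) atTop (𝓝 Z') := by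
      refine Tendsto.congr (fun k => e0 k) hσ
    have hent : ∀ a c : T ⊕ T, Tendsto (fun k : ℕ => (fromBlocks (((ℓ : ℚ_[ℓ]) ^ k)⁻¹ • (ρ (σ k) - 1))
        (0 : Matrix T T ℚ_[ℓ]) (0 : Matrix T T ℚ_[ℓ])
        (((ℓ : ℚ_[ℓ]) ^ k)⁻¹ • (χ (σ k) • ρ (σ k) - 1))) a c) atTop (𝓝 (Z' a c)) :=
      fun a c => ((continuous_id.matrix_elem a c).tendsto _).comp hσ'
    have h11 : Tendsto (fun k : ℕ => ((ℓ : ℚ_[ℓ]) ^ k)⁻¹ • (ρ (σ k) - 1)) atTop
        (𝓝 Z'.toBlocks₁₁) :=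
      ((continuous_id.matrix_submatrix (Sum.inl (β := T)) (Sum.inl (β := T))).tendsto Z').comp hσ'
    have hZ : Z'.toBlocks₁₁ ∈ Lie.sub ρ := (Lie.mem_iff ρ _).2 ⟨σ, h11⟩
    have h12 : Z'.toBlocks₁₂ = 0 := by
      ext s t
      exact tendsto_nhds_unique (hent (Sum.inl s) (Sum.inr t)) tendsto_const_nhds
    have h21 : Z'.toBlocks₂₁ = 0 := by
      ext s t
      exact tendsto_nhds_unique (hent (Sum.inr s) (Sum.inl t)) tendsto_const_nhds
    have h22' : Tendsto (fun k : ℕ => ((ℓ : ℚ_[ℓ]) ^ k)⁻¹ • (χ (σ k) • ρ (σ k) - 1)) atTop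
        (𝓝 Z'.toBlocks₂₂) :=
      ((continuous_id.matrix_submatrix (Sum.inr (α := T)) (Sum.inr (α := T))).tendsto Z').comp hσ'
    have hoo : Lie.Dn (fun k => ρ (σ k) M.o M.o) (Z'.toBlocks₁₁ M.o M.o) := by
      have h3 := ((continuous_id.matrix_elem M.o M.o).tendsto _).comp h11
      refine h3.congr fun k => ?_
      simp only [Function.comp_apply, id, Matrix.smul_apply, Matrix.sub_apply, Matrix.one_apply_eq,
        smul_eq_mul]
    have hz := hoo.zpow (fun k => oo_ne ho hb (σ k)) m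
    have hlim : Tendsto (fun k => χ (σ k)) atTop (𝓝 1) := hz.lim
    have h22 : Z'.toBlocks₂₂ = Z'.toBlocks₁₁ + ((m : ℚ_[ℓ]) * Z'.toBlocks₁₁ M.o M.o) • 1 := by
      refine tendsto_nhds_unique h22' ?_
      have h3 : Tendsto (fun k : ℕ => χ (σ k) • (((ℓ : ℚ_[ℓ]) ^ k)⁻¹ • (ρ (σ k) - 1)) +
          (((ℓ : ℚ_[ℓ]) ^ k)⁻¹ * (χ (σ k) - 1)) • (1 : Matrix T T ℚ_[ℓ])) atTop
          (𝓝 ((1 : ℚ_[ℓ]) • Z'.toBlocks₁₁ + ((m : ℚ_[ℓ]) * Z'.toBlocks₁₁ M.o M.o) • 1)) :=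
        (hlim.smul h11).add (Tendsto.smul hz tendsto_const_nhds)
      rw [one_smul] at h3
      refine h3.congr fun k => ?_
      ext s t
      simp only [Matrix.add_apply, Matrix.smul_apply, Matrix.sub_apply, smul_eq_mul]
      ring
    rw [← fromBlocks_toBlocks Z', h12, h21, h22, fromBlocks_multiply, fromBlocks_multiply]
    have h5 := h _ hZ
    congr 1
    · simp
    · rw [Matrix.zero_mul, zero_add, add_zero, mul_add, Matrix.mul_smul,
        Matrix.mul_one, ← h5]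
      abel
    · simp
    · simp) g hg
  have h2 : dbl ρ χ g = fromBlocks (ρ g) 0 0 (χ g • ρ g) := rfl
  rw [h2, fromBlocks_multiply, fromBlocks_multiply] at h1
  have h3 := (fromBlocks_inj.1 h1).2.1
  rw [Matrix.zero_mul, zero_add, add_zero, Matrix.mul_smul] at h3
  rw [← hχ]
  exact h3.symm

end Pool.Agent.H20.TH
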