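import Mathlib
import Pool.Agent.H20.TD.Glue

/-!
# Goursat's lemma with links
-/

set_option autoImplicit false
set_option linter.unusedSectionVars false

namespace Pool.Agent.H20.TH

open Matrix Pool.Agent.H4.HW Module Pool.Agent.Y114.MU Pool.Agent.Y114.TF Pool.Agent.H20.TB
  Pool.Agent.H20.TD

section family

variable {k : Type} [Field k] [CharZero k] {ι : Type} [Fintype ι] {V : ι → Type}
  [∀ i, AddCommGroup (V i)] [∀ i, Module k (V i)] [∀ i, FiniteDimensional k (V i)]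
  (ω : ∀ i, V i →ₗ[k] V i →ₗ[k] k) (𝔞 : Submodule k (∀ i, End k (V i)))

/-- the two summands are linked -/
def Lk (i j : ι) : Prop := ∃ (g : V j →ₗ[k] V i) (c : k), Function.Bijective g ∧ c ≠ 0 ∧
  (∀ A ∈ 𝔞, ∀ x, g (A j x) = A i (g x)) ∧ ∀ x y, ω j x y = c * ω i (g x) (g y)

theorem lk_refl (i : ι) : Lk ω 𝔞 i i :=
  ⟨LinearMap.id, 1, Function.bijective_id, one_ne_zero, fun _ _ _ => rfl, fun x y => by
    rw [one_mul]; rfl⟩

theorem lk_symm {i j : ι} : Lk ω 𝔞 i j → Lk ω 𝔞 j i := by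
  rintro ⟨g, c, hg, hc, h1, h2⟩
  let e : V j ≃ₗ[k] V i := LinearEquiv.ofBijective g hg
  have he : ∀ x, e x = g x := fun _ => rfl
  refine ⟨e.symm.toLinearMap, c⁻¹, e.symm.bijective, inv_ne_zero hc, fun A hA x => ?_, fun x y => ?_⟩
  · apply e.injective
    rw [LinearEquiv.coe_coe, LinearEquiv.apply_symm_apply, he, h1 A hA, ← he,
      LinearEquiv.apply_symm_apply]
  · rw [h2]
    rw [LinearEquiv.coe_coe, ← he, ← he, LinearEquiv.apply_symm_apply, LinearEquiv.apply_symm_apply,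
      ← mul_assoc, inv_mul_cancel₀ hc, one_mul]

theorem lk_trans {i j l : ι} : Lk ω 𝔞 i j → Lk ω 𝔞 j l → Lk ω 𝔞 i l := by
  rintro ⟨g, c, hg, hc, h1, h2⟩ ⟨g', c', hg', hc', h1', h2'⟩
  refine ⟨g ∘ₗ g', c' * c, hg.comp hg', mul_ne_zero hc' hc, fun A hA x => ?_, fun x y => ?_⟩
  · rw [LinearMap.comp_apply, LinearMap.comp_apply, h1' A hA, h1 A hA]
  · rw [h2', h2, mul_assoc]
    rfl

/-- **Goursat's lemma with links.** -/
theorem goursat_links (halt : ∀ i v, ω i v v = 0) (hnd : ∀ i u, (∀ v, ω i v u = 0) → u = 0)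
    (hsp : ∀ A ∈ 𝔞, ∀ i, A i ∈ SpL (ω i))
    (hbr : ∀ A ∈ 𝔞, ∀ B ∈ 𝔞, (fun i => A i * B i - B i * A i) ∈ 𝔞)
    (hV : ∀ i, ∃ v : V i, v ≠ 0)
    (hsurj : ∀ i, ∀ X ∈ SpL (ω i), ∃ A ∈ 𝔞, A i = X)
    {a : ∀ i, End k (V i)} (ha : ∀ i, a i ∈ SpL (ω i))
    (hl : ∀ i j, i ≠ j → ∀ (g : V j →ₗ[k] V i) (c : k), Function.Bijective g → c ≠ 0 →
      (∀ A ∈ 𝔞, ∀ x, g (A j x) = A i (g x)) → (∀ x y, ω j x y = c * ω i (g x) (g y)) →
      ∀ x, g (a j x) = a i (g x)) : a ∈ 𝔞 := by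
  classical
  let S : Setoid ι := ⟨Lk ω 𝔞, lk_refl ω 𝔞, lk_symm ω 𝔞, lk_trans ω 𝔞⟩
  let Q := Quotient S
  have : Fintype Q := Fintype.ofFinite Q
  let e : Q → ι := fun c => c.out
  have hne : ∀ c c' : Q, c ≠ c' → ¬ Lk ω 𝔞 (e c) (e c') := by
    intro c c' h h1
    apply h
    rw [← Quotient.out_eq c, ← Quotient.out_eq c']
    exact Quotient.sound h1
  let res : (∀ i, End k (V i)) →ₗ[k] (∀ c : Q, End k (V (e c))) :=
    LinearMap.pi fun c => LinearMap.proj (e c)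
  have hres : ∀ A c, res A c = A (e c) := fun _ _ => rfl
  have hsingle : ∀ (c : Q) (X : End k (V (e c))), X ∈ SpL (ω (e c)) →
      Pi.single c X ∈ 𝔞.map res := by
    intro c X hX
    refine goursat_sp (fun c : Q => ω (e c)) (𝔞.map res) (fun c => halt (e c))
      (fun c => hnd (e c)) ?_ ?_ (fun c => hV (e c)) ?_ ?_ c hX
    · rintro _ ⟨A, hA, rfl⟩ c
      exact hsp A hA (e c)
    · rintro _ ⟨A, hA, rfl⟩ _ ⟨B, hB, rfl⟩
      exact ⟨_, hbr A hA B hB, rfl⟩
    · intro c X hX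
      obtain ⟨A, hA, h⟩ := hsurj (e c) X hX
      exact ⟨_, ⟨A, hA, rfl⟩, h⟩
    · intro i j hij g c hg hc hgA hform
      exact hne i j hij ⟨g, c, hg, hc, fun A hA x => hgA _ ⟨A, hA, rfl⟩ x, hform⟩
  have h1 : (fun c => a (e c)) ∈ 𝔞.map res := by
    rw [← Finset.univ_sum_single (fun c => a (e c))]
    exact Submodule.sum_mem _ fun c _ => hsingle c _ (ha (e c))
  obtain ⟨A, hA, hAa⟩ := h1
  have hAe : ∀ c, A (e c) = a (e c) := fun c => congrFun hAa c
  have h2 : A = a := by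
    funext i
    by_cases hi : e (Quotient.mk S i) = i
    · rw [← hi]
      exact hAe _
    · obtain ⟨g, c, hg, hc, hgA, hform⟩ : Lk ω 𝔞 (e (Quotient.mk S i)) i :=
        Quotient.mk_out (s := S) i
      refine LinearMap.ext fun x => hg.1 ?_
      rw [hgA A hA, hAe, hl _ i hi g c hg hc hgA hform]
  rw [← h2]
  exact hA

end family

variable {T B : Type} [Fintype T] [DecidableEq T] {M : Betti T B} {k : Type} [Field k] [CharZero k]

/-- **The elements of the Lie algebra which are zero outside `A`.** -/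
theorem mem_of_links {A : Set B} {𝔤 : Submodule k (Matrix T T k)} (H : LieHyp M A 𝔤)
    {Z : Matrix T T k} (hZb : IsBlock M.blk Z) (hZ0 : ∀ s t, M.blk s ∉ A → Z s t = 0)
    (hsk : ∀ b ∈ A, ∀ s t, M.blk s = b → (Zᵀ * M.EF k + M.EF k * Z) s t = 0)
    (hl : ∀ i j : {b // b ∈ A}, i ≠ j → ∀ (g : space k M.blk j.1 →ₗ[k] space k M.blk i.1) (c : k),
      Function.Bijective g → c ≠ 0 → (∀ a ∈ ha M A 𝔤, ∀ x, g (a j x) = a i (g x)) →
      (∀ x y, frm M k j.1 x y = c * frm M k i.1 (g x) (g y)) →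
      Z * up g = up g * Z) : Z ∈ 𝔤 := by
  classical
  have hfin : Finite {b // b ∈ A} := by
    have h1 : A ⊆ Set.range M.blk := fun b hb => H.ex b hb
    exact (Set.finite_range M.blk).subset h1
  let _ : Fintype {b // b ∈ A} := Fintype.ofFinite _
  have h1 := goursat_links (fun i : {b // b ∈ A} => frm M k i.1) (ha M A 𝔤)
    (fun i v => frm_alt (H.alt i.1 i.2) v) (fun i u hu => frm_nondeg H.form.1 H.form.2 u hu)
    (fun a ha' i => H.sp a ha' i) (fun a ha' a' ha'' => H.br a ha' a' ha'') H.ne H.surj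
    (a := fun i => rs M.blk i.1 Z) (by
      intro i u v
      have h1 := frm_rows hZb (c := 0) (fun s t hs => by rw [hsk i.1 i.2 s t hs, zero_mul]) u v
      rw [h1, zero_mul]) (by
      intro i j hij g c hg hc hga hform x
      have h1 := hl i j hij g c hg hc hga hform
      rw [mul_up hZb, up_mul hZb] at h1
      have h2 := congrArg (fun Y : Matrix T T k => Y *ᵥ (x : T → k)) h1
      beta_reduce at h2
      rw [up_mulVec, up_mulVec, pj_of_mem] at h2
      exact (Subtype.ext h2).symm)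
  obtain ⟨Z', hZ', h⟩ := mem_ha.1 h1
  have hZb' := H.block Z' hZ'.1
  have hZZ : Z' = Z := by
    ext s t
    by_cases hs : M.blk s ∈ A
    swap
    · rw [hZ'.2 s t hs, hZ0 s t hs]
    by_cases ht : M.blk t = M.blk s
    swap
    · rw [hZb' s t (fun h => ht h.symm), hZb s t (fun h => ht h.symm)]
    have hm : (Pi.single t 1 : T → k) ∈ space k M.blk (M.blk s) := by
      intro r hr
      rw [Pi.single_eq_of_ne]
      rintro rfl
      exact hr ht
    have e1 := congrArg (fun Y : End k (space k M.blk (M.blk s)) => (Y ⟨_, hm⟩ : T → k) s)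
      (h ⟨M.blk s, hs⟩)
    beta_reduce at e1
    rw [rs_coe hZb', mulVec_single', rs_coe hZb, mulVec_single'] at e1
    exact e1
  rw [← hZZ]
  exact hZ'.1

end Pool.Agent.H20.TH
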