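import Mathlib
import Pool.Agent.H20.TD.Main
import Pool.Agent.H20.TH.Defs

/-!
# Different realizations
-/

set_option autoImplicit false
set_option linter.unusedSectionVars false

namespace Pool.Agent.H20.TH

open Matrix Pool.Agent.H4.HW Pool.Agent.H20.TD Polynomial

variable {T B : Type} [Fintype T] [DecidableEq T] {M : Betti T B}

section field

variable {k : Type} [Field k] [CharZero k] {b c : B} {C : Matrix T T k}

theorem hom_zero (hC : MapsTo M b c C) (h : ∀ x ∈ space k M.blk c, C *ᵥ x = 0) : C = 0 := by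
  ext s t
  rw [Matrix.zero_apply]
  by_contra h0
  have ht := (hC s t h0).2
  have hm : (Pi.single t 1 : T → k) ∈ space k M.blk c := by
    intro r hr
    rw [Pi.single_eq_of_ne]
    rintro rfl
    exact hr ht
  have h1 := congrFun (h _ hm) s
  rw [mulVec_single'] at h1
  exact h0 h1

variable {𝔤 : Submodule k (Matrix T T k)}

theorem hom_inj (habs : AbsIrr M.blk c 𝔤) (hC : MapsTo M b c C) (hC0 : C ≠ 0)
    (hrel : ∀ Z ∈ 𝔤, ∃ a : k, Z * C - C * Z = a • C) :
    ∀ x ∈ space k M.blk c, C *ᵥ x = 0 → x = 0 := by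
  rcases habs.irr (space k M.blk c ⊓ LinearMap.ker C.mulVecLin) inf_le_left (by
    rintro Z hZ x ⟨hx1, hx2⟩
    refine ⟨act_space (habs.blkg Z hZ) hx1, ?_⟩
    obtain ⟨a, ha⟩ := hrel Z hZ
    have h1 : C * Z = Z * C - a • C := by rw [← ha]; abel
    change C *ᵥ x = 0 at hx2
    change C *ᵥ (Z *ᵥ x) = 0
    rw [mulVec_mulVec, h1, sub_mulVec, ← mulVec_mulVec, hx2, smul_mulVec, hx2, mulVec_zero,
      smul_zero, sub_zero]) with h | h
  · intro x hx hx0
    have h1 : x ∈ space k M.blk c ⊓ LinearMap.ker C.mulVecLin := ⟨hx, hx0⟩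
    rw [h] at h1
    exact (Submodule.mem_bot k).1 h1
  · refine absurd (hom_zero hC fun x hx => ?_) hC0
    rw [← h] at hx
    exact hx.2

theorem hom_mem (hC : MapsTo M b c C) (x : T → k) : C *ᵥ x ∈ space k M.blk b := by
  intro s hs
  rw [mulVec, dotProduct]
  refine Finset.sum_eq_zero fun t _ => ?_
  by_cases h : C s t = 0
  · rw [h, zero_mul]
  · exact absurd (hC s t h).1 hs

theorem hom_surj (habs : AbsIrr M.blk b 𝔤) (hb : ∀ Z ∈ 𝔤, IsBlock M.blk Z) (hC : MapsTo M b c C)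
    (hC0 : C ≠ 0) (hrel : ∀ Z ∈ 𝔤, ∃ a : k, Z * C - C * Z = a • C) :
    ∀ y ∈ space k M.blk b, ∃ x ∈ space k M.blk c, C *ᵥ x = y := by
  rcases habs.irr ((space k M.blk c).map C.mulVecLin) (by
    rintro _ ⟨x, _, rfl⟩
    exact hom_mem hC x) (by
    rintro Z hZ _ ⟨x, hx, rfl⟩
    obtain ⟨a, ha⟩ := hrel Z hZ
    refine ⟨Z *ᵥ x + a • x, Submodule.add_mem _ (act_space (hb Z hZ) hx)
      (Submodule.smul_mem _ _ hx), ?_⟩
    have h1 : Z * C = C * Z + a • C := by rw [← ha]; abel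
    change C *ᵥ (Z *ᵥ x + a • x) = Z *ᵥ (C *ᵥ x)
    rw [mulVec_mulVec, h1, mulVec_add, mulVec_mulVec, add_mulVec, smul_mulVec, mulVec_smul]) with h | h
  · refine absurd (hom_zero hC fun x hx => ?_) hC0
    have h1 : C *ᵥ x ∈ (space k M.blk c).map C.mulVecLin := ⟨x, hx, rfl⟩
    rw [h] at h1
    exact (Submodule.mem_bot k).1 h1
  · intro y hy
    rw [← h] at hy
    exact hy

theorem aeval_comm {A A' : Matrix T T k} (h : A * C = C * A') (P : k[X]) :
    aeval A P * C = C * aeval A' P := by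
  have h1 : ∀ n : ℕ, A ^ n * C = C * A' ^ n := by
    intro n
    induction n with
    | zero => rw [pow_zero, pow_zero, one_mul, mul_one]
    | succ n ih => rw [pow_succ, pow_succ, mul_assoc, h, ← mul_assoc, ih, mul_assoc]
  rw [aeval_eq_sum_range, aeval_eq_sum_range, Finset.sum_mul, Finset.mul_sum]
  refine Finset.sum_congr rfl fun n _ => ?_
  rw [smul_mul_assoc, mul_smul_comm, h1]

theorem aeval_space {A : Matrix T T k} (h : IsBlock M.blk A) (P : k[X]) {x : T → k}
    (hx : x ∈ space k M.blk c) : aeval A P *ᵥ x ∈ space k M.blk c := by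
  have h1 : ∀ n : ℕ, A ^ n *ᵥ x ∈ space k M.blk c := by
    intro n
    induction n with
    | zero => rw [pow_zero, one_mulVec]; exact hx
    | succ n ih => rw [pow_succ', ← mulVec_mulVec]; exact act_space h ih
  rw [aeval_eq_sum_range]
  have h2 : (∑ i ∈ Finset.range (P.natDegree + 1), P.coeff i • A ^ i) *ᵥ x =
      ∑ i ∈ Finset.range (P.natDegree + 1), P.coeff i • (A ^ i *ᵥ x) := by
    rw [sum_mulVec]
    exact Finset.sum_congr rfl fun i _ => smul_mulVec _ _ _
  rw [h2]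
  exact Submodule.sum_mem _ fun i _ => Submodule.smul_mem _ _ (h1 i)

/-- isomorphic representations have kernels of the same dimension -/
theorem ker_eq (hC : MapsTo M b c C)
    (hi : ∀ x ∈ space k M.blk c, C *ᵥ x = 0 → x = 0)
    (hs : ∀ y ∈ space k M.blk b, ∃ x ∈ space k M.blk c, C *ᵥ x = y)
    {A A' : Matrix T T k} (hA' : IsBlock M.blk A') (h : A * C = C * A') (P : k[X]) :
    Module.finrank k ↥(space k M.blk b ⊓ LinearMap.ker (aeval A P).mulVecLin) =
    Module.finrank k ↥(space k M.blk c ⊓ LinearMap.ker (aeval A' P).mulVecLin) := by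
  obtain ⟨W, hW⟩ : ∃ W, W = space k M.blk c ⊓ LinearMap.ker (aeval A' P).mulVecLin := ⟨_, rfl⟩
  have hWm : ∀ x, x ∈ W ↔ x ∈ space k M.blk c ∧ aeval A' P *ᵥ x = 0 := by
    intro x
    rw [hW]
    exact Iff.rfl
  have h1 : W.map C.mulVecLin = space k M.blk b ⊓ LinearMap.ker (aeval A P).mulVecLin := by
    ext y
    constructor
    · rintro ⟨x, hx, rfl⟩
      obtain ⟨_, hx2⟩ := (hWm x).1 hx
      refine ⟨hom_mem hC x, ?_⟩
      change aeval A P *ᵥ (C *ᵥ x) = 0
      rw [mulVec_mulVec, aeval_comm h, ← mulVec_mulVec, hx2, mulVec_zero]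
    · rintro ⟨hy1, hy2⟩
      change aeval A P *ᵥ y = 0 at hy2
      obtain ⟨x, hx, rfl⟩ := hs y hy1
      refine ⟨x, (hWm x).2 ⟨hx, hi _ (aeval_space hA' P hx) ?_⟩, rfl⟩
      rw [mulVec_mulVec, aeval_comm h, ← mulVec_mulVec] at hy2
      exact hy2
  rw [← h1, ← hW]
  have h2 : Function.Injective (C.mulVecLin.submoduleMap W) := by
    rw [← LinearMap.ker_eq_bot, LinearMap.ker_eq_bot']
    rintro ⟨x, hx⟩ h3
    refine Subtype.ext (hi x ((hWm x).1 hx).1 ?_)
    exact congrArg Subtype.val h3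
  exact (LinearEquiv.ofBijective _ ⟨h2, C.mulVecLin.submoduleMap_surjective W⟩).finrank_eq.symm

end field

end Pool.Agent.H20.TH
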